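import Mathlib

/-! Cross product, affine maps of the plane and areas of triangles. -/

namespace Pool.Agent.Lib.MP_b29168_gt

open MeasureTheory Set

abbrev P := ℝ × ℝ

/-- cross product -/
def cr (u v : P) : ℝ := u.1 * v.2 - u.2 * v.1

/-- the linear map with columns `a`, `b` -/
def lin (a b : P) : P →ₗ[ℝ] P where
  toFun p := p.1 • a + p.2 • b
  map_add' p q := by ext <;> simp <;> ring
  map_smul' c p := by ext <;> simp <;> ring

/-- the affine map with origin `o` and columns `a`, `b` -/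
def aff (o a b : P) (p : P) : P := o + lin a b p

theorem aff_fst (o a b p : P) : (aff o a b p).1 = o.1 + (p.1 * a.1 + p.2 * b.1) := by
  simp [aff, lin]

theorem aff_snd (o a b p : P) : (aff o a b p).2 = o.2 + (p.1 * a.2 + p.2 * b.2) := by
  simp [aff, lin]

theorem det_lin (a b : P) : LinearMap.det (lin a b) = cr a b := by
  rw [← LinearMap.det_toMatrix (Module.Basis.finTwoProd ℝ), Matrix.det_fin_two]
  simp [LinearMap.toMatrix_apply, lin, cr, Module.Basis.finTwoProd]
  ring

theorem vol_aff (o a b : P) (S : Set P) :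
    volume (aff o a b '' S) = ENNReal.ofReal |cr a b| * volume S := by
  have h : aff o a b '' S = (fun x => o + x) '' (lin a b '' S) := by
    rw [image_image]; rfl
  rw [h, image_add_left, measure_preimage_add, Measure.addHaar_image_linearMap, det_lin]

/-- open standard triangle -/
def So : Set P := {p | 0 < p.1 ∧ 0 < p.2 ∧ p.1 + p.2 < 1}

/-- closed standard triangle -/
def Sc : Set P := {p | 0 ≤ p.1 ∧ 0 ≤ p.2 ∧ p.1 + p.2 ≤ 1}

theorem int_half :
    ∫ x in Ioo (0 : ℝ) 1, (((fun x : ℝ => 1 - x) - fun _ => (0 : ℝ) : ℝ → ℝ)) x = 1 / 2 := by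
  rw [← integral_Ioc_eq_integral_Ioo, ← intervalIntegral.integral_of_le (by norm_num)]
  simp only [Pi.sub_apply, sub_zero]
  rw [intervalIntegral.integral_sub (by simp) (by simp)]
  simp
  norm_num

theorem vol_So : volume So = ENNReal.ofReal (1 / 2) := by
  have h : So = regionBetween (fun _ => (0 : ℝ)) (fun x => 1 - x) (Ioo 0 1) := by
    ext p
    simp only [So, regionBetween, mem_ofPred_eq, mem_Ioo]
    constructor
    · rintro ⟨h1, h2, h3⟩; exact ⟨⟨h1, by linarith⟩, h2, by linarith⟩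
    · rintro ⟨⟨h1, -⟩, h2, h3⟩; exact ⟨h1, h2, by linarith⟩
  rw [h, Measure.volume_eq_prod, volume_regionBetween_eq_integral, int_half]
  · exact (continuous_const.integrableOn_Icc (a := 0) (b := 1)).mono_set Ioo_subset_Icc_self
  · exact ((by fun_prop : Continuous fun x : ℝ => 1 - x).integrableOn_Icc (a := 0) (b := 1)).mono_set
      Ioo_subset_Icc_self
  · exact measurableSet_Ioo
  · intro x hx; have := hx.2; linarith

theorem convex_So : Convex ℝ So := by
  intro x hx y hy a b ha hb hab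
  obtain ⟨h1, h2, h3⟩ := hx
  obtain ⟨k1, k2, k3⟩ := hy
  simp only [So, mem_ofPred_eq, Prod.fst_add, Prod.snd_add, Prod.smul_fst, Prod.smul_snd, smul_eq_mul]
  rcases eq_or_lt_of_le ha with h | h
  · have : b = 1 := by linarith
    subst h; subst this
    refine ⟨by linarith, by linarith, by linarith⟩
  · refine ⟨by nlinarith, by nlinarith, by nlinarith⟩

theorem Sc_sub : Sc ⊆ closure So := by
  intro p hp
  obtain ⟨h1, h2, h3⟩ := hp
  have ht : Filter.Tendsto (fun t : ℝ => ((1 - t) * p.1 + t / 3, (1 - t) * p.2 + t / 3))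
      (nhdsWithin 0 (Ioo 0 1)) (nhds p) := by
    apply tendsto_nhdsWithin_of_tendsto_nhds
    have hc : Continuous (fun t : ℝ => ((1 - t) * p.1 + t / 3, (1 - t) * p.2 + t / 3)) := by
      fun_prop
    simpa using hc.tendsto 0
  have : (nhdsWithin (0 : ℝ) (Ioo 0 1)).NeBot := left_nhdsWithin_Ioo_neBot (by norm_num)
  refine mem_closure_of_tendsto ht ?_
  filter_upwards [self_mem_nhdsWithin] with t ht
  obtain ⟨t0, t1⟩ := ht
  refine ⟨?_, ?_, ?_⟩ <;> simp only <;> nlinarith

theorem vol_closure {K : Set P} (hK : Convex ℝ K) : volume (closure K) = volume K := by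
  apply le_antisymm _ (measure_mono subset_closure)
  rw [closure_eq_self_union_frontier]
  refine (measure_union_le _ _).trans ?_
  rw [hK.addHaar_frontier volume, add_zero]

theorem vol_Sc : volume Sc ≤ ENNReal.ofReal (1 / 2) := by
  rw [← vol_So, ← vol_closure convex_So]
  exact measure_mono Sc_sub

/-- open triangle -/
def To (a b c : P) : Set P := aff a (b - a) (c - a) '' So

/-- closed triangle -/
def Tc (a b c : P) : Set P := aff a (b - a) (c - a) '' Sc

theorem vol_To (a b c : P) : volume (To a b c) = ENNReal.ofReal (|cr (b - a) (c - a)| / 2) := by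
  rw [To, vol_aff, vol_So, ← ENNReal.ofReal_mul (abs_nonneg _)]
  congr 1; ring

theorem vol_Tc (a b c : P) : volume (Tc a b c) ≤ ENNReal.ofReal (|cr (b - a) (c - a)| / 2) := by
  rw [Tc, vol_aff]
  refine (mul_le_mul_right vol_Sc _).trans ?_
  rw [← ENNReal.ofReal_mul (abs_nonneg _)]
  apply le_of_eq; congr 1; ring

theorem mem_To {a b c x : P} (h : x ∈ To a b c) : ∃ s t : ℝ, 0 < s ∧ 0 < t ∧ s + t < 1 ∧
    x.1 = (1 - s - t) * a.1 + s * b.1 + t * c.1 ∧ x.2 = (1 - s - t) * a.2 + s * b.2 + t * c.2 := by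
  obtain ⟨p, ⟨h1, h2, h3⟩, rfl⟩ := h
  refine ⟨p.1, p.2, h1, h2, h3, ?_, ?_⟩
  · rw [aff_fst]; simp; ring
  · rw [aff_snd]; simp; ring

theorem comb3 {K : Set P} (hK : Convex ℝ K) {a b c x : P} (ha : a ∈ K) (hb : b ∈ K) (hc : c ∈ K)
    {s t : ℝ} (hs : 0 ≤ s) (ht : 0 ≤ t) (hst : s + t ≤ 1)
    (h1 : x.1 = (1 - s - t) * a.1 + s * b.1 + t * c.1)
    (h2 : x.2 = (1 - s - t) * a.2 + s * b.2 + t * c.2) : x ∈ K := by
  have := hK.sum_mem (t := Finset.univ) (w := ![1 - s - t, s, t]) (z := ![a, b, c])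
    (by intro i _; fin_cases i <;> simp <;> linarith) (by simp [Fin.sum_univ_three]; ring)
    (by intro i _; fin_cases i <;> simpa)
  have hx : x = ∑ i, ![1 - s - t, s, t] i • ![a, b, c] i := by
    ext <;> simp [Fin.sum_univ_three, h1, h2]
  rwa [hx]

theorem To_sub {K : Set P} (hK : Convex ℝ K) {a b c : P} (ha : a ∈ K) (hb : b ∈ K) (hc : c ∈ K) :
    To a b c ⊆ K := by
  intro x hx
  obtain ⟨s, t, hs, ht, hst, h1, h2⟩ := mem_To hx
  exact comb3 hK ha hb hc hs.le ht.le hst.le h1 h2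

theorem Tc_sub {K : Set P} (hK : Convex ℝ K) {a b c : P} (ha : a ∈ K) (hb : b ∈ K) (hc : c ∈ K) :
    Tc a b c ⊆ K := by
  rintro x ⟨p, ⟨h1, h2, h3⟩, rfl⟩
  refine comb3 hK ha hb hc h1 h2 h3 ?_ ?_
  · rw [aff_fst]; simp; ring
  · rw [aff_snd]; simp; ring

theorem mem_Tc {a b c x : P} (hD : 0 < cr (b - a) (c - a)) (h1 : 0 ≤ cr (b - a) (x - a))
    (h2 : 0 ≤ cr (c - b) (x - b)) (h3 : 0 ≤ cr (x - a) (c - a)) : x ∈ Tc a b c := by
  refine ⟨(cr (x - a) (c - a) / cr (b - a) (c - a), cr (b - a) (x - a) / cr (b - a) (c - a)),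
    ⟨div_nonneg h3 hD.le, div_nonneg h1 hD.le, ?_⟩, ?_⟩
  · simp only
    rw [← add_div, div_le_one hD]
    simp only [cr, Prod.fst_sub, Prod.snd_sub] at *
    nlinarith
  · have hD' := hD.ne'
    ext
    · rw [aff_fst]; simp only; field_simp; simp only [cr, Prod.fst_sub, Prod.snd_sub]; ring
    · rw [aff_snd]; simp only; field_simp; simp only [cr, Prod.fst_sub, Prod.snd_sub]; ring

theorem meas_To (a b c : P) : NullMeasurableSet (To a b c) volume := by
  have : Convex ℝ (To a b c) := by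
    have h : To a b c = (fun x => a + x) '' (lin (b - a) (c - a) '' So) := by
      rw [image_image]; rfl
    rw [h]
    exact (convex_So.linear_image _).translate a
  exact this.nullMeasurableSet volume

end Pool.Agent.Lib.MP_b29168_gt
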