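import Pool.Agent.Lib.MP_b29168_gt.Cov

/-! Normalised convex sets and the area of their four caps (Lemma V). -/

namespace Pool.Agent.Lib.MP_b29168_gt

open MeasureTheory Set

/-- `K` contains the square with vertices `(±1, ±1)` and lies in the quadrilateral whose side
midpoints are these vertices, with parameters `s`, `t`. -/
structure Nm (K : Set P) (s t : ℝ) : Prop where
  conv : Convex ℝ K
  cpt : IsCompact K
  a1 : ((1, -1) : P) ∈ K
  a2 : ((1, 1) : P) ∈ K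
  a3 : ((-1, 1) : P) ∈ K
  a4 : ((-1, -1) : P) ∈ K
  se : ∀ x ∈ K, (1 + t) * (x.1 - 1) - (1 + s) * (x.2 + 1) ≤ 0
  ne : ∀ x ∈ K, (1 - t) * (x.1 - 1) + (1 + s) * (x.2 - 1) ≤ 0
  nw : ∀ x ∈ K, -(1 - t) * (x.1 + 1) + (1 - s) * (x.2 - 1) ≤ 0
  sw : ∀ x ∈ K, -(1 + t) * (x.1 + 1) - (1 - s) * (x.2 + 1) ≤ 0

/-- quarter turn -/
def rot (p : P) : P := (-p.2, p.1)

theorem rot_pre (S : Set P) : rot ⁻¹' S = aff 0 (0, -1) (1, 0) '' S := by
  ext p
  constructor
  · intro h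
    refine ⟨rot p, h, ?_⟩
    ext
    · rw [aff_fst]; simp [rot]
    · rw [aff_snd]; simp [rot]
  · rintro ⟨q, hq, rfl⟩
    have : rot (aff 0 (0, -1) (1, 0) q) = q := by
      ext
      · simp [rot, aff_snd]
      · simp [rot, aff_fst]
    rwa [mem_preimage, this]

theorem vol_rot (S : Set P) : volume (rot ⁻¹' S) = volume S := by
  rw [rot_pre, vol_aff]; simp [cr]

theorem cont_aff (o a b : P) : Continuous (aff o a b) := by
  have : aff o a b = fun p : P => o + (p.1 • a + p.2 • b) := rfl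
  rw [this]; fun_prop

theorem convex_aff (o a b : P) {S : Set P} (h : Convex ℝ S) : Convex ℝ (aff o a b '' S) := by
  have e : aff o a b '' S = (fun x => o + x) '' (lin a b '' S) := by
    rw [image_image]; rfl
  rw [e]
  exact (h.linear_image _).translate o

namespace Nm

variable {K : Set P} {s t : ℝ}

theorem bd (h : Nm K s t) : 0 ≤ 1 + s ∧ 0 ≤ 1 - s ∧ 0 ≤ 1 + t ∧ 0 ≤ 1 - t := by
  have h1 := h.se _ h.a2
  have h2 := h.se _ h.a4
  have h3 := h.nw _ h.a4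
  have h4 := h.nw _ h.a2
  simp only at h1 h2 h3 h4
  refine ⟨by linarith, by linarith, by linarith, by linarith⟩

theorem rotate (h : Nm K s t) : Nm (rot ⁻¹' K) (-t) s where
  conv := by rw [rot_pre]; exact convex_aff _ _ _ h.conv
  cpt := by rw [rot_pre]; exact h.cpt.image (cont_aff _ _ _)
  a1 := by simpa [rot] using h.a2
  a2 := by simpa [rot] using h.a3
  a3 := by simpa [rot] using h.a4
  a4 := by simpa [rot] using h.a1
  se x hx := by have := h.ne _ hx; simp only [rot] at this; linarith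
  ne x hx := by have := h.nw _ hx; simp only [rot] at this; linarith
  nw x hx := by have := h.sw _ hx; simp only [rot] at this; linarith
  sw x hx := by have := h.se _ hx; simp only [rot] at this; linarith

theorem strip (h : Nm K s t) {x : P} (hx : x ∈ K) (h1 : 1 < x.1) : -1 ≤ x.2 ∧ x.2 ≤ 1 := by
  obtain ⟨b1, b2, b3, b4⟩ := h.bd
  have k1 := h.se _ hx
  have k2 := h.ne _ hx
  rcases eq_or_lt_of_le b1 with e | e
  · rw [← e] at k1 k2
    nlinarith
  · constructor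
    · by_contra hc
      nlinarith [mul_pos e (sub_pos.2 (not_le.1 hc)), mul_nonneg b3 (sub_pos.2 h1).le]
    · by_contra hc
      nlinarith [mul_pos e (sub_pos.2 (not_le.1 hc)), mul_nonneg b4 (sub_pos.2 h1).le]

theorem sq_mem (h : Nm K s t) {x : P} (h1 : -1 ≤ x.1) (h2 : x.1 ≤ 1) (h3 : -1 ≤ x.2)
    (h4 : x.2 ≤ 1) : x ∈ K := by
  rcases le_total (x.1 + x.2) 0 with hc | hc
  · exact comb3 h.conv h.a4 h.a1 h.a3 (s := (x.1 + 1) / 2) (t := (x.2 + 1) / 2) (by linarith)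
      (by linarith) (by linarith) (by simp only; ring) (by simp only; ring)
  · exact comb3 h.conv h.a2 h.a3 h.a1 (s := (1 - x.1) / 2) (t := (1 - x.2) / 2) (by linarith)
      (by linarith) (by linarith) (by simp only; ring) (by simp only; ring)

/-- a point left of the right side of the square is not beyond the chord from `(1,-1)` to `w` -/
theorem low (h : Nm K s t) {y w : P} (hy : y ∈ K) (hw : w ∈ K) (h0 : 1 ≤ w.1) (hp : -1 ≤ w.2)
    (h1 : y.1 < 1) : (y.1 - 1) * (w.2 + 1) - (y.2 + 1) * (w.1 - 1) ≤ 0 := by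
  obtain ⟨b1, b2, b3, b4⟩ := h.bd
  rcases le_or_gt 0 (y.2 + 1) with e | e
  · nlinarith [mul_nonneg e (sub_nonneg.2 h0), mul_nonneg (sub_pos.2 h1).le (by linarith : 0 ≤ w.2 + 1)]
  have k1 := h.se _ hy
  have k2 := h.sw _ hy
  have k3 := h.se _ hw
  rcases eq_or_lt_of_le b3 with f | f
  · have : t = -1 := by linarith
    subst this
    nlinarith
  · by_contra hc
    have := mul_pos f (not_le.1 hc)
    nlinarith [mul_nonneg (neg_nonneg.2 e.le) (neg_nonneg.2 k3),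
      mul_nonneg (by linarith : 0 ≤ w.2 + 1) (neg_nonneg.2 k1)]

theorem high (h : Nm K s t) {y w : P} (hy : y ∈ K) (hw : w ∈ K) (h0 : 1 ≤ w.1) (hp : w.2 ≤ 1)
    (h1 : y.1 < 1) : (y.1 - 1) * (1 - w.2) + (y.2 - 1) * (w.1 - 1) ≤ 0 := by
  obtain ⟨b1, b2, b3, b4⟩ := h.bd
  rcases le_or_gt 0 (1 - y.2) with e | e
  · nlinarith [mul_nonneg e (sub_nonneg.2 h0), mul_nonneg (sub_pos.2 h1).le (by linarith : 0 ≤ 1 - w.2)]
  have k1 := h.ne _ hy
  have k2 := h.nw _ hy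
  have k3 := h.ne _ hw
  rcases eq_or_lt_of_le b4 with f | f
  · have : t = 1 := by linarith
    subst this
    nlinarith
  · by_contra hc
    have := mul_pos f (not_le.1 hc)
    nlinarith [mul_nonneg (neg_nonneg.2 e.le) (neg_nonneg.2 k3),
      mul_nonneg (by linarith : 0 ≤ 1 - w.2) (neg_nonneg.2 k1)]

end Nm

theorem add_le_vol {A B E : Set P} (hB : NullMeasurableSet B volume) (hd : Disjoint A B)
    (h1 : A ⊆ E) (h2 : B ⊆ E) : volume A + volume B ≤ volume E := by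
  rw [← measure_union₀ hB hd.aedisjoint]
  exact measure_mono (union_subset h1 h2)

/-- area of the right cap -/
noncomputable def capv (K : Set P) : ℝ := (volume (K ∩ {x | 1 < x.1})).toReal

theorem three_tri {K : Set P} (hK : Convex ℝ K) (hf : volume K ≠ ⊤) {h p : ℝ} {y z : P}
    (a1 : ((1, -1) : P) ∈ K) (a2 : ((1, 1) : P) ∈ K) (hw : ((1 + h, p) : P) ∈ K) (hh : 0 < h)
    (hy : y ∈ K) (hz : z ∈ K) (y1 : 1 ≤ y.1) (y2 : y.1 ≤ 1 + h) (z1 : 1 ≤ z.1)
    (b1 : 0 ≤ (y.1 - 1) * (p + 1) - (y.2 + 1) * h) (b2 : 0 ≤ (z.1 - 1 - h) * (1 - p) + (z.2 - p) * h) :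
    y.1 * (1 + p) - y.2 * h + z.1 * (1 - p) + z.2 * h ≤ 2 + 2 * capv K := by
  have s0 : To (1, -1) (1 + h, p) (1, 1) ⊆ (K ∩ {x | 1 < x.1}) ∩
      {x | (x.1 - 1) * (p + 1) - (x.2 + 1) * h < 0 ∧ (x.1 - 1 - h) * (1 - p) + (x.2 - p) * h < 0} := by
    intro x hx
    obtain ⟨s, t, hs, ht, hst, h1, h2⟩ := mem_To hx
    refine ⟨⟨To_sub hK a1 hw a2 hx, ?_⟩, ?_, ?_⟩ <;> simp only [mem_ofPred_eq, h1, h2] <;>
      nlinarith [mul_pos hs hh, mul_pos ht hh, mul_pos (sub_pos.2 hst) hh]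
  have s1 : To (1, -1) y (1 + h, p) ⊆ (K ∩ {x | 1 < x.1}) ∩
      {x | 0 ≤ (x.1 - 1) * (p + 1) - (x.2 + 1) * h ∧ (x.1 - 1 - h) * (1 - p) + (x.2 - p) * h < 0} := by
    intro x hx
    obtain ⟨s, t, hs, ht, hst, h1, h2⟩ := mem_To hx
    have k : (y.1 - 1 - h) * (1 - p) + (y.2 - p) * h ≤ 0 := by nlinarith
    refine ⟨⟨To_sub hK a1 hy hw hx, ?_⟩, ?_, ?_⟩ <;> simp only [mem_ofPred_eq, h1, h2]
    · nlinarith [mul_pos ht hh, mul_nonneg hs.le (sub_nonneg.2 y1)]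
    · nlinarith [mul_nonneg hs.le b1]
    · nlinarith [mul_pos (sub_pos.2 hst) hh, mul_nonneg hs.le (neg_nonneg.2 k)]
  have s2 : To (1 + h, p) z (1, 1) ⊆ (K ∩ {x | 1 < x.1}) ∩
      {x | 0 ≤ (x.1 - 1 - h) * (1 - p) + (x.2 - p) * h} := by
    intro x hx
    obtain ⟨s, t, hs, ht, hst, h1, h2⟩ := mem_To hx
    refine ⟨⟨To_sub hK hw hz a2 hx, ?_⟩, ?_⟩ <;> simp only [mem_ofPred_eq, h1, h2]
    · nlinarith [mul_pos (sub_pos.2 hst) hh, mul_nonneg hs.le (sub_nonneg.2 z1)]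
    · nlinarith [mul_nonneg hs.le b2]
  have d1 : Disjoint (To (1, -1) (1 + h, p) (1, 1)) (To (1, -1) y (1 + h, p)) :=
    disjoint_left.2 fun x h0 h1 => absurd (s0 h0).2.1 (not_lt.2 (s1 h1).2.1)
  have d2 : Disjoint (To (1, -1) (1 + h, p) (1, 1) ∪ To (1, -1) y (1 + h, p)) (To (1 + h, p) z (1, 1)) :=
    disjoint_left.2 fun x h0 h1 => by
      rcases h0 with h0 | h0
      · exact absurd (s0 h0).2.2 (not_lt.2 (s2 h1).2)
      · exact absurd (s1 h0).2.2 (not_lt.2 (s2 h1).2)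
  have k := add_le_vol (meas_To _ _ _) d2 (union_subset (fun x hx => (s0 hx).1) fun x hx => (s1 hx).1)
    fun x hx => (s2 hx).1
  rw [measure_union₀ (meas_To _ _ _) d1.aedisjoint, vol_To, vol_To, vol_To,
    ← ENNReal.ofReal_add (by positivity) (by positivity),
    ← ENNReal.ofReal_add (by positivity) (by positivity),
    ENNReal.ofReal_le_iff_le_toReal (ne_top_of_le_ne_top hf (measure_mono inter_subset_left))] at k
  have e : ∀ u : ℝ, u / 2 ≤ |u| / 2 := fun u => by linarith [le_abs_self u]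
  have k2 := le_trans (add_le_add (add_le_add (e _) (e _)) (e _)) k
  simp only [cr, Prod.fst_sub, Prod.snd_sub] at k2
  unfold capv
  linarith

theorem Nm.cap {K : Set P} {s t : ℝ} (H : Nm K s t) : ∃ h p : ℝ, 0 ≤ h ∧ -1 ≤ p ∧ p ≤ 1 ∧
    ((1 + h, p) : P) ∈ K ∧ (∀ x ∈ K, x.1 ≤ 1 + h) ∧ ∀ y ∈ K, ∀ z ∈ K,
      y.1 * (1 + p) - y.2 * h + z.1 * (1 - p) + z.2 * h ≤ 2 + 2 * capv K := by
  obtain ⟨w, hw, hm⟩ := H.cpt.exists_isMaxOn ⟨_, H.a1⟩ continuous_fst.continuousOn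
  have hm' : ∀ x ∈ K, x.1 ≤ w.1 := fun x hx => hm hx
  have c0 : 0 ≤ capv K := ENNReal.toReal_nonneg
  rcases eq_or_lt_of_le (hm' _ H.a1) with e | e
  · refine ⟨0, 0, le_rfl, by norm_num, by norm_num,
      H.sq_mem (by norm_num) (by norm_num) (by norm_num) (by norm_num),
      fun x hx => by linarith [hm' x hx], fun y hy z hz => by linarith [hm' y hy, hm' z hz]⟩
  obtain ⟨p1, p2⟩ := H.strip hw e
  have hw' : ((1 + (w.1 - 1), w.2) : P) ∈ K := by simpa using hw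
  refine ⟨w.1 - 1, w.2, by linarith, p1, p2, hw', fun x hx => by linarith [hm' x hx], ?_⟩
  have hf : volume K ≠ ⊤ := H.cpt.measure_lt_top.ne
  have T : ∀ y ∈ K, ∀ z ∈ K, 1 ≤ y.1 → 1 ≤ z.1 →
      0 ≤ (y.1 - 1) * (w.2 + 1) - (y.2 + 1) * (w.1 - 1) →
      0 ≤ (z.1 - 1 - (w.1 - 1)) * (1 - w.2) + (z.2 - w.2) * (w.1 - 1) → _ :=
    fun y hy z hz y1 z1 b1 b2 => three_tri H.conv hf H.a1 H.a2 hw' (by linarith) hy hz y1
      (by linarith [hm' y hy]) z1 b1 b2
  have T2 : ∀ y ∈ K, ∀ z ∈ K, 1 ≤ y.1 →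
      0 ≤ (y.1 - 1) * (w.2 + 1) - (y.2 + 1) * (w.1 - 1) →
      y.1 * (1 + w.2) - y.2 * (w.1 - 1) + z.1 * (1 - w.2) + z.2 * (w.1 - 1) ≤ 2 + 2 * capv K := by
    intro y hy z hz y1 b1
    by_cases b2 : 0 < (z.1 - 1 - (w.1 - 1)) * (1 - w.2) + (z.2 - w.2) * (w.1 - 1)
    · refine T y hy z hz y1 ?_ b1 b2.le
      by_contra hc
      have := H.high hz hw e.le p2 (not_le.1 hc)
      linarith
    · have := T y hy _ H.a2 y1 le_rfl b1 (by simp only; linarith)
      simp only at this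
      linarith
  intro y hy z hz
  by_cases b1 : 0 < (y.1 - 1) * (w.2 + 1) - (y.2 + 1) * (w.1 - 1)
  · refine T2 y hy z hz ?_ b1.le
    by_contra hc
    have := H.low hy hw e.le p1 (not_le.1 hc)
    linarith
  · have := T2 _ H.a1 z hz le_rfl (by simp)
    simp only at this
    linarith

theorem Nm.total {K : Set P} {s t : ℝ} (H : Nm K s t) :
    4 + capv K + capv (rot ⁻¹' K) + capv (rot ⁻¹' (rot ⁻¹' K)) +
      capv (rot ⁻¹' (rot ⁻¹' (rot ⁻¹' K))) ≤ (volume K).toReal := by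
  have hf : volume K ≠ ⊤ := H.cpt.measure_lt_top.ne
  have mK : MeasurableSet K := H.cpt.measurableSet
  have e2 : capv (rot ⁻¹' K) = (volume (K ∩ {x | 1 < x.2})).toReal := by
    rw [capv, ← vol_rot (K ∩ _)]; rfl
  have e3 : capv (rot ⁻¹' (rot ⁻¹' K)) = (volume (K ∩ {x | 1 < -x.1})).toReal := by
    rw [capv, ← vol_rot (K ∩ _), ← vol_rot (rot ⁻¹' (K ∩ _))]
    congr 2; ext x; simp [rot]
  have e4 : capv (rot ⁻¹' (rot ⁻¹' (rot ⁻¹' K))) = (volume (K ∩ {x | 1 < -x.2})).toReal := by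
    rw [capv, ← vol_rot (K ∩ _), ← vol_rot (rot ⁻¹' (K ∩ _)), ← vol_rot (rot ⁻¹' (rot ⁻¹' (K ∩ _)))]
    congr 2; ext x; simp [rot]
  have v0 : volume (Ioo (-1 : ℝ) 1 ×ˢ Ioo (-1 : ℝ) 1) = ENNReal.ofReal 4 := by
    rw [Measure.volume_eq_prod, Measure.prod_prod, Real.volume_Ioo,
      ← ENNReal.ofReal_mul (by norm_num)]
    norm_num
  have st1 : ∀ x ∈ K, 1 < x.1 → -1 ≤ x.2 ∧ x.2 ≤ 1 := fun x hx => H.strip hx
  have st3 : ∀ x ∈ K, 1 < -x.1 → -1 ≤ x.2 ∧ x.2 ≤ 1 := fun x hx h => by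
    have := H.rotate.rotate.strip (x := (-x.1, -x.2)) (by simpa [rot] using hx) h
    simp only at this
    constructor <;> linarith [this.1, this.2]
  have m : ∀ f : P → ℝ, Continuous f → NullMeasurableSet (K ∩ {x | 1 < f x}) volume :=
    fun f hf => (mK.inter (isOpen_lt continuous_const hf).measurableSet).nullMeasurableSet
  have m1 := m _ continuous_fst
  have m2 := m _ continuous_snd
  have m3 := m (fun x => -x.1) (by fun_prop)
  have m4 := m (fun x => -x.2) (by fun_prop)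
  have hle : volume (Ioo (-1 : ℝ) 1 ×ˢ Ioo (-1 : ℝ) 1 ∪ K ∩ {x | 1 < x.1} ∪ K ∩ {x | 1 < x.2} ∪
      K ∩ {x | 1 < -x.1} ∪ K ∩ {x | 1 < -x.2}) ≤ volume K := by
    apply measure_mono
    refine union_subset (union_subset (union_subset (union_subset ?_ inter_subset_left)
      inter_subset_left) inter_subset_left) inter_subset_left
    rintro x ⟨⟨h1, h2⟩, h3, h4⟩
    exact H.sq_mem h1.le h2.le h3.le h4.le
  rw [measure_union₀ m4, measure_union₀ m3, measure_union₀ m2, measure_union₀ m1, v0] at hle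
  · have f : ∀ S : Set P, volume (K ∩ S) ≠ ⊤ :=
      fun S => ne_top_of_le_ne_top hf (measure_mono inter_subset_left)
    have := ENNReal.toReal_mono hf hle
    rw [ENNReal.toReal_add, ENNReal.toReal_add, ENNReal.toReal_add, ENNReal.toReal_add,
      ENNReal.toReal_ofReal (by norm_num)] at this
    · rw [e2, e3, e4, capv]; exact this
    all_goals simp [f]
  all_goals
    refine Disjoint.aedisjoint (disjoint_left.2 ?_)
    rintro x hx ⟨hk, hy⟩
    simp only [mem_union, mem_prod, mem_Ioo, mem_inter_iff, mem_ofPred_eq] at hx hy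
  · linarith [hx.1.2]
  · rcases hx with hx | hx
    · linarith [hx.2.2]
    · linarith [(st1 x hk hx.2).2]
  · rcases hx with (hx | hx) | hx
    · linarith [hx.1.1]
    · linarith [hx.2]
    · linarith [(st3 x hk hy).2, hx.2]
  · rcases hx with ((hx | hx) | hx) | hx
    · linarith [hx.2.1]
    · linarith [(st1 x hk hx.2).1]
    · linarith [hx.2]
    · linarith [(st3 x hk hx.2).1]

end Pool.Agent.Lib.MP_b29168_gt
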