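import Pool.Agent.Lib.MP_b29168_gt.Aff

/-! Quadrilaterals containing a set; the mixed-area bound (Lemma D). -/

namespace Pool.Agent.Lib.MP_b29168_gt

open MeasureTheory Set

/-- `K` lies in the convex hull of four points, of area at most `s` -/
def Cov (K : Set P) (s : ℝ) : Prop :=
  ∃ a b c d : P, K ⊆ convexHull ℝ {a, b, c, d} ∧
    volume (convexHull ℝ {a, b, c, d}) ≤ ENNReal.ofReal s

theorem Cov.mono {K : Set P} {s t : ℝ} (h : Cov K s) (hst : s ≤ t) : Cov K t := by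
  obtain ⟨a, b, c, d, h1, h2⟩ := h
  exact ⟨a, b, c, d, h1, h2.trans (ENNReal.ofReal_le_ofReal hst)⟩

theorem two_tri {a b c d x : P} (h1 : 0 ≤ cr (b - a) (c - a)) (h3 : 0 ≤ cr (c - a) (d - a))
    (hp : 0 < cr (b - a) (c - a) + cr (c - a) (d - a))
    (k1 : 0 ≤ cr (b - a) (x - a)) (k2 : 0 ≤ cr (c - b) (x - b)) (k3 : 0 ≤ cr (d - c) (x - c))
    (k4 : 0 ≤ cr (a - d) (x - d)) : x ∈ Tc a b c ∪ Tc a c d := by
  have e1 : cr (b - a) (x - a) + cr (c - b) (x - b) + cr (x - a) (c - a) = cr (b - a) (c - a) := by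
    simp only [cr, Prod.fst_sub, Prod.snd_sub]; ring
  have e2 : cr (d - c) (x - c) + cr (a - d) (x - d) - cr (x - a) (c - a) = cr (c - a) (d - a) := by
    simp only [cr, Prod.fst_sub, Prod.snd_sub]; ring
  have e3 : cr (c - a) (x - a) = - cr (x - a) (c - a) := by simp only [cr]; ring
  have e4 : cr (x - a) (d - a) = cr (a - d) (x - d) := by
    simp only [cr, Prod.fst_sub, Prod.snd_sub]; ring
  have A : 0 < cr (b - a) (c - a) → 0 ≤ cr (x - a) (c - a) → x ∈ Tc a b c ∪ Tc a c d :=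
    fun h h' => Or.inl (mem_Tc h k1 k2 h')
  have B : 0 < cr (c - a) (d - a) → cr (x - a) (c - a) ≤ 0 → x ∈ Tc a b c ∪ Tc a c d :=
    fun h h' => Or.inr (mem_Tc h (by linarith) k3 (by linarith))
  rcases le_total 0 (cr (x - a) (c - a)) with h | h
  · rcases eq_or_lt_of_le h1 with h' | h'
    · exact B (by linarith) (by linarith)
    · exact A h' h
  · rcases eq_or_lt_of_le h3 with h' | h'
    · exact A (by linarith) (by linarith)
    · exact B h' h

theorem convex_half (u o : P) : Convex ℝ {x : P | 0 ≤ cr u (x - o)} := by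
  intro x hx y hy s t hs ht hst
  simp only [mem_ofPred_eq, cr, Prod.fst_sub, Prod.snd_sub, Prod.fst_add, Prod.snd_add,
    Prod.smul_fst, Prod.smul_snd, smul_eq_mul] at *
  have : t = 1 - s := by linarith
  subst this
  nlinarith [mul_nonneg hs hx, mul_nonneg ht hy]

theorem hullcov {K : Set P} {a b c d : P} (h1 : 0 ≤ cr (b - a) (c - a))
    (h2 : 0 ≤ cr (c - b) (d - b)) (h3 : 0 ≤ cr (c - a) (d - a)) (h4 : 0 ≤ cr (b - a) (d - a))
    (hp : 0 < cr (b - a) (c - a) + cr (c - a) (d - a))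
    (hK : ∀ x ∈ K, 0 ≤ cr (b - a) (x - a) ∧ 0 ≤ cr (c - b) (x - b) ∧ 0 ≤ cr (d - c) (x - c) ∧
      0 ≤ cr (a - d) (x - d)) : Cov K ((cr (b - a) (c - a) + cr (c - a) (d - a)) / 2) := by
  have hc := convex_convexHull ℝ ({a, b, c, d} : Set P)
  have ha : a ∈ convexHull ℝ ({a, b, c, d} : Set P) := subset_convexHull _ _ (by simp)
  have hb : b ∈ convexHull ℝ ({a, b, c, d} : Set P) := subset_convexHull _ _ (by simp)
  have hc' : c ∈ convexHull ℝ ({a, b, c, d} : Set P) := subset_convexHull _ _ (by simp)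
  have hd : d ∈ convexHull ℝ ({a, b, c, d} : Set P) := subset_convexHull _ _ (by simp)
  refine ⟨a, b, c, d, fun x hx => ?_, ?_⟩
  · obtain ⟨k1, k2, k3, k4⟩ := hK x hx
    rcases two_tri h1 h3 hp k1 k2 k3 k4 with h | h
    · exact Tc_sub hc ha hb hc' h
    · exact Tc_sub hc ha hc' hd h
  · have hs : convexHull ℝ ({a, b, c, d} : Set P) ⊆ Tc a b c ∪ Tc a c d := by
      have : convexHull ℝ ({a, b, c, d} : Set P) ⊆ {x | 0 ≤ cr (b - a) (x - a)} ∩
          ({x | 0 ≤ cr (c - b) (x - b)} ∩ ({x | 0 ≤ cr (d - c) (x - c)} ∩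
          {x | 0 ≤ cr (a - d) (x - d)})) := by
        apply convexHull_min
        · intro x hx
          simp only [mem_insert_iff, mem_singleton_iff] at hx
          simp only [cr, Prod.fst_sub, Prod.snd_sub] at h1 h2 h3 h4
          rcases hx with rfl | rfl | rfl | rfl <;>
            simp only [mem_inter_iff, mem_ofPred_eq, cr, Prod.fst_sub, Prod.snd_sub] <;>
            refine ⟨?_, ?_, ?_, ?_⟩ <;> nlinarith
        · exact (convex_half _ _).inter ((convex_half _ _).inter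
            ((convex_half _ _).inter (convex_half _ _)))
      intro x hx
      obtain ⟨k1, k2, k3, k4⟩ := this hx
      exact two_tri h1 h3 hp k1 k2 k3 k4
    refine (measure_mono hs).trans ((measure_union_le _ _).trans ?_)
    refine (add_le_add (vol_Tc a b c) (vol_Tc a c d)).trans ?_
    rw [abs_of_nonneg h1, abs_of_nonneg h3, ← ENNReal.ofReal_add (by linarith) (by linarith)]
    apply le_of_eq; congr 1; ring

/-- the point `Y` with `cr Y u = g` and `cr Y v = h` -/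
noncomputable def vx (u v : P) (g h : ℝ) : P :=
  ((h * u.1 - g * v.1) / cr u v, (h * u.2 - g * v.2) / cr u v)

theorem vx_left {u v : P} (g h : ℝ) (huv : cr u v ≠ 0) : cr (vx u v g h) u = g := by
  show (h * u.1 - g * v.1) / cr u v * u.2 - (h * u.2 - g * v.2) / cr u v * u.1 = g
  field_simp; simp only [cr]; ring

theorem vx_right {u v : P} (g h : ℝ) (huv : cr u v ≠ 0) : cr (vx u v g h) v = h := by
  show (h * u.1 - g * v.1) / cr u v * v.2 - (h * u.2 - g * v.2) / cr u v * v.1 = h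
  field_simp; simp only [cr]; ring

theorem edge_len {u v w A B y : P} (huv : 0 < cr u v) (hvw : 0 < cr v w)
    (h1 : cr y u ≤ cr A u) (h2 : cr y v = cr A v) (h3 : cr y v = cr B v) (h4 : cr y w ≤ cr B w) :
    ∃ l : ℝ, 0 ≤ l ∧ B.1 = A.1 + l * v.1 ∧ B.2 = A.2 + l * v.2 := by
  have hu := huv.ne'
  have hw := hvw.ne'
  refine ⟨(cr A u - cr y u) / cr u v + (cr B w - cr y w) / cr v w,
    add_nonneg (div_nonneg (by linarith) huv.le) (div_nonneg (by linarith) hvw.le), ?_, ?_⟩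
  · have a1 : y.1 = A.1 + (cr A u - cr y u) / cr u v * v.1 := by
      field_simp; simp only [cr] at *; linear_combination u.1 * h2
    have a2 : B.1 = y.1 + (cr B w - cr y w) / cr v w * v.1 := by
      field_simp; simp only [cr] at *; linear_combination w.1 * h3
    linear_combination a1 + a2
  · have a1 : y.2 = A.2 + (cr A u - cr y u) / cr u v * v.2 := by
      field_simp; simp only [cr] at *; linear_combination u.2 * h2
    have a2 : B.2 = y.2 + (cr B w - cr y w) / cr v w * v.2 := by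
      field_simp; simp only [cr] at *; linear_combination w.2 * h3
    linear_combination a1 + a2

theorem mink {l1 l2 l3 l4 c12 c23 c34 c41 c24 W : ℝ} (p12 : 0 < c12) (p23 : 0 < c23)
    (p34 : 0 < c34) (p41 : 0 < c41) (h1 : (l3 - l1) * c23 + (l4 - l1) * c24 = 0)
    (h2 : (l1 - l3) * c41 = (l2 - l3) * c24) (hW : 2 * W = (l1 + l2) * c12 + (l3 + l4) * c34) :
    (l1 * l2 * c12 + l3 * l4 * c34) * (c12 + c34) ≤ W ^ 2 := by
  have key : ∀ t : ℝ, (l1 - t) * (l2 - t) * c12 + (l3 - t) * (l4 - t) * c34 ≤ 0 →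
      (l1 * l2 * c12 + l3 * l4 * c34) * (c12 + c34) ≤ W ^ 2 := by
    intro t ht
    have e : (l1 - t) * (l2 - t) * c12 + (l3 - t) * (l4 - t) * c34 =
        (l1 * l2 * c12 + l3 * l4 * c34) - 2 * t * W + t ^ 2 * (c12 + c34) := by
      linear_combination t * hW
    rw [e] at ht
    nlinarith [mul_nonneg (add_pos p12 p34).le (neg_nonneg.2 ht), sq_nonneg (t * (c12 + c34) - W)]
  rcases le_total 0 c24 with h | h
  · apply key l1
    have : (l3 - l1) * (l4 - l1) ≤ 0 := by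
      by_contra hc
      have := mul_pos (not_le.1 hc) p23
      nlinarith [mul_nonneg (sq_nonneg (l4 - l1)) h, congrArg (· * (l4 - l1)) h1]
    nlinarith
  · apply key l3
    have : (l1 - l3) * (l2 - l3) ≤ 0 := by
      by_contra hc
      have := mul_pos (not_le.1 hc) p41
      nlinarith [mul_nonneg (sq_nonneg (l2 - l3)) (neg_nonneg.2 h), congrArg (· * (l2 - l3)) h2]
    nlinarith

/-- Lemma D: the circumscribed quadrilateral with sides parallel to `e1, …, e4`. -/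
theorem dual {K : Set P} {e1 e2 e3 e4 y1 y2 y3 y4 : P} (s1 : e1.1 + e2.1 + e3.1 + e4.1 = 0)
    (s2 : e1.2 + e2.2 + e3.2 + e4.2 = 0) (p12 : 0 < cr e1 e2) (p23 : 0 < cr e2 e3)
    (p34 : 0 < cr e3 e4) (p41 : 0 < cr e4 e1) (m1 : y1 ∈ K) (m2 : y2 ∈ K) (m3 : y3 ∈ K)
    (m4 : y4 ∈ K) (x1 : ∀ x ∈ K, cr x e1 ≤ cr y1 e1) (x2 : ∀ x ∈ K, cr x e2 ≤ cr y2 e2)
    (x3 : ∀ x ∈ K, cr x e3 ≤ cr y3 e3) (x4 : ∀ x ∈ K, cr x e4 ≤ cr y4 e4)
    (q1 : 0 < cr y1 e1) (q2 : 0 < cr y2 e2) (q3 : 0 < cr y3 e3) (q4 : 0 < cr y4 e4) :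
    Cov K ((cr y1 e1 + cr y2 e2 + cr y3 e3 + cr y4 e4) ^ 2 / (2 * (cr e1 e2 + cr e3 e4))) := by
  obtain ⟨A, a4, a1⟩ : ∃ A, cr A e4 = cr y4 e4 ∧ cr A e1 = cr y1 e1 :=
    ⟨_, vx_left _ _ p41.ne', vx_right _ _ p41.ne'⟩
  obtain ⟨B, b1, b2⟩ : ∃ A, cr A e1 = cr y1 e1 ∧ cr A e2 = cr y2 e2 :=
    ⟨_, vx_left _ _ p12.ne', vx_right _ _ p12.ne'⟩
  obtain ⟨C, c2, c3⟩ : ∃ A, cr A e2 = cr y2 e2 ∧ cr A e3 = cr y3 e3 :=
    ⟨_, vx_left _ _ p23.ne', vx_right _ _ p23.ne'⟩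
  obtain ⟨D, d3, d4⟩ : ∃ A, cr A e3 = cr y3 e3 ∧ cr A e4 = cr y4 e4 :=
    ⟨_, vx_left _ _ p34.ne', vx_right _ _ p34.ne'⟩
  obtain ⟨l1, n1, u1, v1⟩ := edge_len (A := A) (B := B) p41 p12 (a4 ▸ x4 _ m1) a1.symm b1.symm
    (b2 ▸ x2 _ m1)
  obtain ⟨l2, n2, u2, v2⟩ := edge_len (A := B) (B := C) p12 p23 (b1 ▸ x1 _ m2) b2.symm c2.symm
    (c3 ▸ x3 _ m2)
  obtain ⟨l3, n3, u3, v3⟩ := edge_len (A := C) (B := D) p23 p34 (c2 ▸ x2 _ m3) c3.symm d3.symm
    (d4 ▸ x4 _ m3)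
  obtain ⟨l4, n4, u4, v4⟩ := edge_len (A := D) (B := A) p34 p41 (d3 ▸ x3 _ m4) d4.symm a4.symm
    (a1 ▸ x1 _ m4)
  have D1 : cr (B - A) (C - A) = l1 * l2 * cr e1 e2 := by
    simp only [cr, Prod.fst_sub, Prod.snd_sub]; rw [u2, v2, u1, v1]; ring
  have D2 : cr (C - B) (D - B) = l2 * l3 * cr e2 e3 := by
    simp only [cr, Prod.fst_sub, Prod.snd_sub]; rw [u3, v3, u2, v2]; ring
  have D3 : cr (C - A) (D - A) = l3 * l4 * cr e3 e4 := by
    simp only [cr, Prod.fst_sub, Prod.snd_sub]; rw [u4, v4, u3, v3]; ring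
  have D4 : cr (B - A) (D - A) = l4 * l1 * cr e4 e1 := by
    simp only [cr, Prod.fst_sub, Prod.snd_sub]; rw [u1, v1, u4, v4]; ring
  have cl1 : l1 * e1.1 + l2 * e2.1 + l3 * e3.1 + l4 * e4.1 = 0 := by linarith
  have cl2 : l1 * e1.2 + l2 * e2.2 + l3 * e3.2 + l4 * e4.2 = 0 := by linarith
  have hS : l1 * l2 * cr e1 e2 + l3 * l4 * cr e3 e4 =
      l1 * cr y1 e1 + l2 * cr y2 e2 + l3 * cr y3 e3 + l4 * cr y4 e4 := by
    rw [← a1, ← b2, ← c3, ← a4]
    simp only [cr]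
    rw [u2, v2, u1, v1]
    linear_combination l3 * (e3.1 * cl2 - e3.2 * cl1) - (A.1 * cl2 - A.2 * cl1)
  have hsum : cr A e1 + cr A e2 + cr A e3 + cr A e4 = 0 := by
    simp only [cr]; linear_combination A.1 * s2 - A.2 * s1
  have hpos : 0 < l1 * l2 * cr e1 e2 + l3 * l4 * cr e3 e4 := by
    rw [hS]
    by_contra hc
    have t1 := mul_nonneg n1 q1.le
    have t2 := mul_nonneg n2 q2.le
    have t3 := mul_nonneg n3 q3.le
    have t4 := mul_nonneg n4 q4.le
    have z1 : l1 = 0 := (mul_eq_zero.1 (by linarith : l1 * cr y1 e1 = 0)).resolve_right q1.ne'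
    have z2 : l2 = 0 := (mul_eq_zero.1 (by linarith : l2 * cr y2 e2 = 0)).resolve_right q2.ne'
    have hB : B = A := by ext <;> simp [u1, v1, z1]
    have hC : C = A := by ext <;> simp [u2, v2, z2, hB]
    rw [hB] at b2
    rw [hC] at c3
    linarith
  have hc := hullcov (K := K) (a := A) (b := B) (c := C) (d := D)
    (by rw [D1]; positivity) (by rw [D2]; positivity) (by rw [D3]; positivity)
    (by rw [D4]; positivity) (by rw [D1, D3]; exact hpos) (by
      intro x hx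
      have k1 := mul_nonneg n1 (sub_nonneg.2 (a1 ▸ x1 x hx))
      have k2 := mul_nonneg n2 (sub_nonneg.2 (b2 ▸ x2 x hx))
      have k3 := mul_nonneg n3 (sub_nonneg.2 (c3 ▸ x3 x hx))
      have k4 := mul_nonneg n4 (sub_nonneg.2 (d4 ▸ x4 x hx))
      simp only [cr, Prod.fst_sub, Prod.snd_sub] at k1 k2 k3 k4 ⊢
      refine ⟨?_, ?_, ?_, ?_⟩
      · rw [u1, v1]; linarith
      · rw [u2, v2]; linarith
      · rw [u3, v3]; linarith
      · have u4' : A.1 - D.1 = l4 * e4.1 := by linarith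
        have v4' : A.2 - D.2 = l4 * e4.2 := by linarith
        rw [u4', v4']; linarith)
  refine hc.mono ?_
  rw [D1, D3, div_le_div_iff₀ (by norm_num) (by positivity)]
  have f1 : e4.1 = -e1.1 - e2.1 - e3.1 := by linarith
  have f2 : e4.2 = -e1.2 - e2.2 - e3.2 := by linarith
  have := mink (l1 := l1) (l2 := l2) (l3 := l3) (l4 := l4) (c24 := cr e2 e4)
    (W := cr y1 e1 + cr y2 e2 + cr y3 e3 + cr y4 e4) p12 p23 p34 p41
    (by simp only [cr]; linear_combination e2.1 * cl2 - e2.2 * cl1 - l1 * e2.1 * s2 + l1 * e2.2 * s1)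
    (by simp only [cr]; linear_combination e4.1 * cl2 - e4.2 * cl1 - l3 * e4.1 * s2 + l3 * e4.2 * s1)
    (by
      rw [← a1, ← b2, ← c3, ← a4]
      simp only [cr]
      rw [u2, v2, u1, v1]
      rw [f1] at cl1
      rw [f2] at cl2
      rw [f1, f2]
      linear_combination (2 * e3.2 + e1.2 + e2.2) * cl1 - (2 * e3.1 + e1.1 + e2.1) * cl2)
  linarith

end Pool.Agent.Lib.MP_b29168_gt
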