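import Pool.Agent.Lib.MP_b29168_gt.Cap

/-! A parallelogram of maximal area in `K` and the quadrilateral with its vertices as midpoints. -/

namespace Pool.Agent.Lib.MP_b29168_gt

open MeasureTheory Set

/-- no parallelogram with vertices in `K` has area larger than `4` -/
def MaxPar (K : Set P) : Prop :=
  ∀ x1 ∈ K, ∀ x2 ∈ K, ∀ x3 ∈ K, ∀ x4 ∈ K, x1.1 - x2.1 + x3.1 - x4.1 = 0 →
    x1.2 - x2.2 + x3.2 - x4.2 = 0 → cr (x1 - x3) (x2 - x4) ≤ 8

theorem seg {K : Set P} (hK : Convex ℝ K) {a b : P} (ha : a ∈ K) (hb : b ∈ K) {u : ℝ} (h0 : 0 ≤ u)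
    (h1 : u ≤ 1) : (((1 - u) * a.1 + u * b.1, (1 - u) * a.2 + u * b.2) : P) ∈ K :=
  comb3 hK ha hb hb (s := u) (t := 0) h0 le_rfl (by linarith) (by simp) (by simp)

section

variable {K : Set P} (hK : Convex ℝ K) (a1 : ((1, -1) : P) ∈ K) (a2 : ((1, 1) : P) ∈ K)
  (a3 : ((-1, 1) : P) ∈ K) (a4 : ((-1, -1) : P) ∈ K) (hM : MaxPar K)

include hK a1 a2 a3 a4 hM

theorem first_order {x1 x2 x3 x4 : P} (m1 : x1 ∈ K) (m2 : x2 ∈ K) (m3 : x3 ∈ K) (m4 : x4 ∈ K)
    (w1 : x1.1 - x2.1 + x3.1 - x4.1 = 0) (w2 : x1.2 - x2.2 + x3.2 - x4.2 = 0) :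
    x1.1 - x1.2 + x2.1 + x2.2 - x3.1 + x3.2 - x4.1 - x4.2 - 8 ≤ 0 := by
  by_contra hc
  set l := x1.1 - x1.2 + x2.1 + x2.2 - x3.1 + x3.2 - x4.1 - x4.2 - 8 with hl
  have hl0 : 0 < l := not_le.1 hc
  set r := (x1.1 - x3.1 - 2) * (x2.2 - x4.2 - 2) - (x1.2 - x3.2 + 2) * (x2.1 - x4.1 - 2) with hr
  have hr0 := abs_nonneg r
  have u0 : 0 < l / (l + |r|) := by positivity
  have u1 : l / (l + |r|) ≤ 1 := by rw [div_le_one (by positivity)]; linarith
  have u2 : l / (l + |r|) * (l + |r|) = l := by field_simp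
  set u := l / (l + |r|)
  have := hM _ (seg hK a1 m1 u0.le u1) _ (seg hK a2 m2 u0.le u1) _ (seg hK a3 m3 u0.le u1) _
    (seg hK a4 m4 u0.le u1) (by simp only; linear_combination u * w1)
    (by simp only; linear_combination u * w2)
  simp only [cr, Prod.fst_sub, Prod.snd_sub] at this
  have e : u * (2 * l + u * r) ≤ 0 := by rw [hl, hr]; linarith
  have e2 : 0 < 2 * l + u * r := by nlinarith [mul_le_mul_of_nonneg_left (neg_abs_le r) u0.le]
  nlinarith [mul_pos u0 e2]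

theorem penalty {x1 x2 x3 x4 : P} (m1 : x1 ∈ K) (m2 : x2 ∈ K) (m3 : x3 ∈ K) (m4 : x4 ∈ K) :
    x1.1 - x1.2 + x2.1 + x2.2 - x3.1 + x3.2 - x4.1 - x4.2 - 8 ≤
      9 * (|x1.1 - x2.1 + x3.1 - x4.1| + |x1.2 - x2.2 + x3.2 - x4.2|) := by
  set w1 := x1.1 - x2.1 + x3.1 - x4.1 with hw1
  set w2 := x1.2 - x2.2 + x3.2 - x4.2 with hw2
  have n1 := abs_nonneg w1
  have n2 := abs_nonneg w2
  have sq : ∀ x : P, |x.1| + |x.2| ≤ 1 → x ∈ K := by
    intro x hx
    have := le_abs_self x.1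
    have := neg_abs_le x.1
    have := le_abs_self x.2
    have := neg_abs_le x.2
    have := abs_nonneg x.1
    have := abs_nonneg x.2
    rcases le_total (x.1 + x.2) 0 with hc | hc
    · exact comb3 hK a4 a1 a3 (s := (x.1 + 1) / 2) (t := (x.2 + 1) / 2) (by linarith)
        (by linarith) (by linarith) (by simp only; ring) (by simp only; ring)
    · exact comb3 hK a2 a3 a1 (s := (1 - x.1) / 2) (t := (1 - x.2) / 2) (by linarith)
        (by linarith) (by linarith) (by simp only; ring) (by simp only; ring)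
  rcases eq_or_lt_of_le (add_nonneg n1 n2) with e | e
  · have := first_order hK a1 a2 a3 a4 hM m1 m2 m3 m4 (abs_eq_zero.1 (by linarith))
      (abs_eq_zero.1 (by linarith))
    linarith
  set N := |w1| + |w2| with hN
  have z1 : ((-w1 / N, -w2 / N) : P) ∈ K := sq _ (by
    simp only [abs_div, abs_neg, abs_of_pos e]
    rw [← add_div, div_self e.ne'])
  have z0 : ((0, 0) : P) ∈ K := sq _ (by simp)
  have u0 : 0 < N / (1 + N) := by positivity
  have u1 : N / (1 + N) ≤ 1 := by rw [div_le_one (by positivity)]; linarith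
  have := first_order hK a1 a2 a3 a4 hM (seg hK m1 z1 u0.le u1) (seg hK m2 z0 u0.le u1)
    (seg hK m3 z0 u0.le u1) (seg hK m4 z0 u0.le u1)
    (by simp only; field_simp; linear_combination -hw1)
    (by simp only; field_simp; linear_combination -hw2)
  simp only at this
  have e2 : (1 - N / (1 + N)) * x1.1 + N / (1 + N) * (-w1 / N) -
      ((1 - N / (1 + N)) * x1.2 + N / (1 + N) * (-w2 / N)) +
      ((1 - N / (1 + N)) * x2.1 + N / (1 + N) * 0) + ((1 - N / (1 + N)) * x2.2 + N / (1 + N) * 0) -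
      ((1 - N / (1 + N)) * x3.1 + N / (1 + N) * 0) + ((1 - N / (1 + N)) * x3.2 + N / (1 + N) * 0) -
      ((1 - N / (1 + N)) * x4.1 + N / (1 + N) * 0) - ((1 - N / (1 + N)) * x4.2 + N / (1 + N) * 0) -
      8 = (x1.1 - x1.2 + x2.1 + x2.2 - x3.1 + x3.2 - x4.1 - x4.2 - 8 - w1 + w2 - 8 * N) / (1 + N) := by
    field_simp; ring
  rw [e2, div_nonpos_iff] at this
  have k1 := le_abs_self w1
  have k2 := neg_abs_le w2
  rcases this with h | h <;> linarith [h.1, h.2]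

theorem kkt (hc : IsCompact K) : ∃ s t, Nm K s t := by
  have c1 : Convex ℝ {q : ℝ × ℝ × ℝ | 9 * (|q.1| + |q.2.1|) < q.2.2} := by
    intro x hx y hy a b ha hb hab
    simp only [mem_ofPred_eq, Prod.fst_add, Prod.snd_add, Prod.smul_fst, Prod.smul_snd,
      smul_eq_mul] at *
    have k1 := abs_add_le (a * x.1) (b * y.1)
    have k2 := abs_add_le (a * x.2.1) (b * y.2.1)
    rw [abs_mul, abs_mul, abs_of_nonneg ha, abs_of_nonneg hb] at k1 k2
    rcases eq_or_lt_of_le ha with h | h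
    · have : b = 1 := by linarith
      subst h; subst this
      linarith
    · nlinarith [mul_pos h (sub_pos.2 hx), mul_nonneg hb (sub_pos.2 hy).le]
  have o1 : IsOpen {q : ℝ × ℝ × ℝ | 9 * (|q.1| + |q.2.1|) < q.2.2} :=
    isOpen_lt (by fun_prop) (by fun_prop)
  have c2 : Convex ℝ {q : ℝ × ℝ × ℝ | ∃ x1 ∈ K, ∃ x2 ∈ K, ∃ x3 ∈ K, ∃ x4 ∈ K,
      q = (x1.1 - x2.1 + x3.1 - x4.1, x1.2 - x2.2 + x3.2 - x4.2,
        x1.1 - x1.2 + x2.1 + x2.2 - x3.1 + x3.2 - x4.1 - x4.2 - 8)} := by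
    rintro _ ⟨x1, m1, x2, m2, x3, m3, x4, m4, rfl⟩ _ ⟨y1, n1, y2, n2, y3, n3, y4, n4, rfl⟩ a b ha hb hab
    refine ⟨_, hK m1 n1 ha hb hab, _, hK m2 n2 ha hb hab, _, hK m3 n3 ha hb hab, _,
      hK m4 n4 ha hb hab, ?_⟩
    ext <;> simp only [Prod.fst_add, Prod.snd_add, Prod.smul_fst, Prod.smul_snd, smul_eq_mul]
    · ring
    · ring
    · linear_combination (-8) * hab
  obtain ⟨f, u, f1, f2⟩ := geometric_hahn_banach_open c1 o1 c2 (disjoint_left.2 (by
    rintro _ h ⟨x1, m1, x2, m2, x3, m3, x4, m4, rfl⟩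
    exact absurd h (not_lt.2 (penalty hK a1 a2 a3 a4 hM m1 m2 m3 m4))))
  have hf : ∀ x y z : ℝ, f (x, y, z) = x * f (1, 0, 0) + y * f (0, 1, 0) + z * f (0, 0, 1) := by
    intro x y z
    have : ((x, y, z) : ℝ × ℝ × ℝ) = x • (1, 0, 0) + y • (0, 1, 0) + z • (0, 0, 1) := by simp
    rw [this, map_add, map_add, map_smul, map_smul, map_smul]; rfl
  set α := f (1, 0, 0)
  set β := f (0, 1, 0)
  set γ := f (0, 0, 1)
  have g : ∀ x1 ∈ K, ∀ x2 ∈ K, ∀ x3 ∈ K, ∀ x4 ∈ K, u ≤ (x1.1 - x2.1 + x3.1 - x4.1) * α +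
      (x1.2 - x2.2 + x3.2 - x4.2) * β +
      (x1.1 - x1.2 + x2.1 + x2.2 - x3.1 + x3.2 - x4.1 - x4.2 - 8) * γ := by
    intro x1 m1 x2 m2 x3 m3 x4 m4
    rw [← hf]; exact f2 _ ⟨x1, m1, x2, m2, x3, m3, x4, m4, rfl⟩
  have g0 : u ≤ 0 := by have := g _ a1 _ a2 _ a3 _ a4; simp only at this; linarith
  have g1 : ∀ z : ℝ, 0 < z → z * γ < u := fun z hz => by
    have := f1 (0, 0, z) (by simpa using hz)
    rw [hf] at this; linarith
  have γ0 : γ < 0 := by linarith [g1 1 one_pos]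
  have u0 : 0 ≤ u := by
    by_contra h
    have := g1 (u / γ) (div_pos_of_neg_of_neg (not_le.1 h) γ0)
    rw [div_mul_cancel₀ _ γ0.ne] at this
    exact lt_irrefl _ this
  have fin : ∀ x y z : ℝ, u ≤ x * α + y * β + z * γ → z + x * (α / γ) + y * (β / γ) ≤ 0 := by
    intro x y z h
    have : z + x * (α / γ) + y * (β / γ) = (x * α + y * β + z * γ) / γ := by
      have := γ0.ne; field_simp; ring
    rw [this]; exact div_nonpos_of_nonneg_of_nonpos (by linarith) γ0.le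
  refine ⟨-(β / γ), α / γ, hK, hc, a1, a2, a3, a4, fun x hx => ?_, fun x hx => ?_, fun x hx => ?_,
    fun x hx => ?_⟩
  · have := fin _ _ _ (g _ hx _ a2 _ a3 _ a4); simp only at this; linarith
  · have := fin _ _ _ (g _ a1 _ hx _ a3 _ a4); simp only at this; linarith
  · have := fin _ _ _ (g _ a1 _ a2 _ hx _ a4); simp only at this; linarith
  · have := fin _ _ _ (g _ a1 _ a2 _ a3 _ hx); simp only at this; linarith

end

theorem Cov.image {K : Set P} {s : ℝ} (h : Cov K s) (o u v : P) :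
    Cov (aff o u v '' K) (|cr u v| * s) := by
  obtain ⟨a, b, c, d, h1, h2⟩ := h
  let F : P →ᵃ[ℝ] P := ⟨aff o u v, lin u v, fun p q => by simp [aff]; abel⟩
  have e : aff o u v '' convexHull ℝ {a, b, c, d} =
      convexHull ℝ {aff o u v a, aff o u v b, aff o u v c, aff o u v d} := by
    have := F.image_convexHull {a, b, c, d}
    rw [image_insert_eq, image_insert_eq, image_insert_eq, image_singleton] at this
    exact this
  refine ⟨_, _, _, _, e ▸ image_mono h1, ?_⟩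
  rw [← e, vol_aff, ENNReal.ofReal_mul (abs_nonneg _)]
  exact mul_le_mul_right h2 _

/-- affine normalisation of a compact convex set containing a proper triangle -/
theorem normalise {K : Set P} (hK : Convex ℝ K) (hc : IsCompact K) {a b c : P} (ha : a ∈ K)
    (hb : b ∈ K) (hc' : c ∈ K) (hp : 0 < cr (b - a) (c - a)) :
    ∃ (L : Set P) (o u v : P) (s t : ℝ), Nm L s t ∧ MaxPar L ∧ K = aff o u v '' L := by
  have hS : IsCompact ((K ×ˢ K ×ˢ K ×ˢ K) ∩ {q : P × P × P × P |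
      q.1.1 - q.2.1.1 + q.2.2.1.1 - q.2.2.2.1 = 0 ∧ q.1.2 - q.2.1.2 + q.2.2.1.2 - q.2.2.2.2 = 0}) :=
    (hc.prod (hc.prod (hc.prod hc))).inter_right
      ((isClosed_eq (by fun_prop) (by fun_prop)).inter (isClosed_eq (by fun_prop) (by fun_prop)))
  have hF : Continuous fun q : P × P × P × P => cr (q.1 - q.2.2.1) (q.2.1 - q.2.2.2) := by
    unfold cr; fun_prop
  have h2 : (0 : ℝ) ≤ 1 / 2 := by norm_num
  have h2' : (1 / 2 : ℝ) ≤ 1 := by norm_num
  obtain ⟨⟨x1, x2, x3, x4⟩, ⟨⟨m1, m2, m3, m4⟩, w1, w2⟩, hm⟩ := hS.exists_isMaxOn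
    ⟨(a, a, a, a), ⟨ha, ha, ha, ha⟩, by simp, by simp⟩ hF.continuousOn
  simp only at m1 m2 m3 m4 w1 w2
  have hmax : ∀ y1 ∈ K, ∀ y2 ∈ K, ∀ y3 ∈ K, ∀ y4 ∈ K, y1.1 - y2.1 + y3.1 - y4.1 = 0 →
      y1.2 - y2.2 + y3.2 - y4.2 = 0 → cr (y1 - y3) (y2 - y4) ≤ cr (x1 - x3) (x2 - x4) :=
    fun y1 n1 y2 n2 y3 n3 y4 n4 k1 k2 => hm (a := (y1, y2, y3, y4)) ⟨⟨n1, n2, n3, n4⟩, k1, k2⟩
  have hpos := hmax _ ha _ (seg hK ha hb h2 h2') _ (seg hK hb hc' h2 h2') _ (seg hK ha hc' h2 h2')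
    (by simp only; ring) (by simp only; ring)
  set o : P := ((x1.1 + x3.1) / 2, (x1.2 + x3.2) / 2) with ho
  set u : P := ((x2.1 - x3.1) / 2, (x2.2 - x3.2) / 2) with hu
  set v : P := ((x2.1 - x1.1) / 2, (x2.2 - x1.2) / 2) with hv
  have e8 : cr (x1 - x3) (x2 - x4) = 8 * cr u v := by
    simp only [cr, hu, hv, Prod.fst_sub, Prod.snd_sub]
    linear_combination (x1.1 - x3.1) * w2 - (x1.2 - x3.2) * w1
  have m0 : 0 < cr u v := by
    rw [e8] at hpos
    simp only [cr, Prod.fst_sub, Prod.snd_sub] at hp hpos ⊢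
    linarith
  have m0' := m0.ne'
  let g : P → P := aff (-cr o v / cr u v, -cr u o / cr u v) (v.2 / cr u v, -u.2 / cr u v)
    (-v.1 / cr u v, u.1 / cr u v)
  have l1 : ∀ x, aff o u v (g x) = x := fun x => by
    ext
    · simp only [g, aff_fst, aff_snd]; field_simp; simp only [cr]; ring
    · simp only [g, aff_fst, aff_snd]; field_simp; simp only [cr]; ring
  have l2 : ∀ x, g (aff o u v x) = x := fun x => by
    ext
    · simp only [g, aff_fst, aff_snd]; field_simp; simp only [cr]; ring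
    · simp only [g, aff_fst, aff_snd]; field_simp; simp only [cr]; ring
  have mem : ∀ p, p ∈ g '' K ↔ aff o u v p ∈ K := fun p =>
    ⟨by rintro ⟨x, hx, rfl⟩; rwa [l1], fun h => ⟨_, h, l2 p⟩⟩
  have cv : Convex ℝ (g '' K) := convex_aff _ _ _ hK
  have pt : ∀ p x : P, x ∈ K → (aff o u v p).1 = x.1 → (aff o u v p).2 = x.2 → p ∈ g '' K :=
    fun p x hx k1 k2 => (mem p).2 (by rwa [Prod.ext k1 k2])
  have b1 := pt (1, -1) _ m1 (by simp only [aff_fst, ho, hu, hv]; ring)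
    (by simp only [aff_snd, ho, hu, hv]; ring)
  have b2 := pt (1, 1) _ m2 (by simp only [aff_fst, ho, hu, hv]; ring)
    (by simp only [aff_snd, ho, hu, hv]; ring)
  have b3 := pt (-1, 1) _ m3 (by simp only [aff_fst, ho, hu, hv]; ring)
    (by simp only [aff_snd, ho, hu, hv]; ring)
  have b4 := pt (-1, -1) _ m4 (by simp only [aff_fst, ho, hu, hv]; linarith)
    (by simp only [aff_snd, ho, hu, hv]; linarith)
  have hM : MaxPar (g '' K) := by
    intro y1 n1 y2 n2 y3 n3 y4 n4 k1 k2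
    have := hmax _ ((mem _).1 n1) _ ((mem _).1 n2) _ ((mem _).1 n3) _ ((mem _).1 n4)
      (by simp only [aff_fst]; linear_combination u.1 * k1 + v.1 * k2)
      (by simp only [aff_snd]; linear_combination u.2 * k1 + v.2 * k2)
    have e : cr (aff o u v y1 - aff o u v y3) (aff o u v y2 - aff o u v y4) =
        cr (y1 - y3) (y2 - y4) * cr u v := by
      simp only [cr, Prod.fst_sub, Prod.snd_sub, aff_fst, aff_snd]; ring
    rw [e, e8] at this
    exact le_of_mul_le_mul_right this m0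
  obtain ⟨s, t, hN⟩ := kkt cv b1 b2 b3 b4 hM (hc.image (cont_aff _ _ _))
  refine ⟨g '' K, o, u, v, s, t, hN, hM, ?_⟩
  rw [image_image]; simp only [l1, image_id']

end Pool.Agent.Lib.MP_b29168_gt
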