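import Pool.Agent.Lib.MP_b29168_gt.Kkt

/-! Support values, the inner octagon and the basic circumscribed quadrilaterals. -/

namespace Pool.Agent.Lib.MP_b29168_gt

open MeasureTheory Set

/-- support value of `K` on the outer side of the edge vector `e` -/
noncomputable def sv (K : Set P) (e : P) : ℝ := sSup ((fun x => cr x e) '' K)

theorem sv_spec {K : Set P} (hc : IsCompact K) (hn : K.Nonempty) (e : P) :
    ∃ y ∈ K, sv K e = cr y e ∧ ∀ x ∈ K, cr x e ≤ cr y e := by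
  have hF : Continuous fun x : P => cr x e := by unfold cr; fun_prop
  obtain ⟨y, hy, hm⟩ := hc.exists_isMaxOn hn hF.continuousOn
  refine ⟨y, hy, IsGreatest.csSup_eq ⟨⟨y, hy, rfl⟩, ?_⟩, fun x hx => hm hx⟩
  rintro _ ⟨x, hx, rfl⟩
  exact hm hx

attribute [irreducible] sv

namespace Nm

variable {K : Set P} {s t : ℝ}

theorem le_sv (H : Nm K s t) {x : P} (hx : x ∈ K) (e : P) : cr x e ≤ sv K e := by
  obtain ⟨y, -, h1, h2⟩ := sv_spec H.cpt ⟨_, H.a1⟩ e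
  rw [h1]; exact h2 x hx

theorem sv_pos (H : Nm K s t) {e e' : P} (h : 0 < cr e e') : 0 < sv K e := by
  by_contra hc
  have h1 := H.le_sv H.a1 e
  have h2 := H.le_sv H.a2 e
  have h3 := H.le_sv H.a3 e
  have h4 := H.le_sv H.a4 e
  simp only [cr] at h h1 h2 h3 h4
  have k1 : e.1 = 0 := by linarith
  have k2 : e.2 = 0 := by linarith
  rw [k1, k2] at h
  simp at h

theorem sv_two (H : Nm K s t) {f g e : P} {a b : ℝ} (ha : 0 ≤ a) (hb : 0 ≤ b)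
    (h1 : e.1 = a * f.1 + b * g.1) (h2 : e.2 = a * f.2 + b * g.2) :
    sv K e ≤ a * sv K f + b * sv K g := by
  obtain ⟨y, hy, k, -⟩ := sv_spec H.cpt ⟨_, H.a1⟩ e
  have k1 := mul_le_mul_of_nonneg_left (H.le_sv hy f) ha
  have k2 := mul_le_mul_of_nonneg_left (H.le_sv hy g) hb
  have : cr y e = a * cr y f + b * cr y g := by simp only [cr, h1, h2]; ring
  linarith

theorem dual' (H : Nm K s t) {e1 e2 e3 e4 : P} (s1 : e1.1 + e2.1 + e3.1 + e4.1 = 0)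
    (s2 : e1.2 + e2.2 + e3.2 + e4.2 = 0) (p12 : 0 < cr e1 e2) (p23 : 0 < cr e2 e3)
    (p34 : 0 < cr e3 e4) (p41 : 0 < cr e4 e1) :
    Cov K ((sv K e1 + sv K e2 + sv K e3 + sv K e4) ^ 2 / (2 * (cr e1 e2 + cr e3 e4))) := by
  have q1 := H.sv_pos p12
  have q2 := H.sv_pos p23
  have q3 := H.sv_pos p34
  have q4 := H.sv_pos p41
  obtain ⟨y1, m1, k1, x1⟩ := sv_spec H.cpt ⟨_, H.a1⟩ e1
  obtain ⟨y2, m2, k2, x2⟩ := sv_spec H.cpt ⟨_, H.a1⟩ e2
  obtain ⟨y3, m3, k3, x3⟩ := sv_spec H.cpt ⟨_, H.a1⟩ e3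
  obtain ⟨y4, m4, k4, x4⟩ := sv_spec H.cpt ⟨_, H.a1⟩ e4
  rw [k1] at q1
  rw [k2] at q2
  rw [k3] at q3
  rw [k4] at q4
  rw [k1, k2, k3, k4]
  exact dual s1 s2 p12 p23 p34 p41 m1 m2 m3 m4 x1 x2 x3 x4 q1 q2 q3 q4

theorem eight (H : Nm K s t) : Cov K 8 := by
  obtain ⟨b1, b2, b3, b4⟩ := H.bd
  refine (hullcov (K := K) (a := (2 + s, t)) (b := (-s, 2 - t)) (c := (-2 + s, t)) (d := (-s, -2 - t))
    ?_ ?_ ?_ ?_ ?_ fun x hx => ?_).mono ?_ <;> simp only [cr, Prod.fst_sub, Prod.snd_sub]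
  any_goals linarith
  have k1 := H.se x hx
  have k2 := H.ne x hx
  have k3 := H.nw x hx
  have k4 := H.sw x hx
  refine ⟨by linarith, by linarith, by linarith, by linarith⟩

theorem box {h1 h2 h3 h4 : ℝ} (n1 : 0 ≤ h1) (n2 : 0 ≤ h2) (n3 : 0 ≤ h3) (n4 : 0 ≤ h4)
    (hK : ∀ x ∈ K, x.1 ≤ 1 + h1 ∧ x.2 ≤ 1 + h2 ∧ -x.1 ≤ 1 + h3 ∧ -x.2 ≤ 1 + h4) :
    Cov K ((2 + h1 + h3) * (2 + h2 + h4)) := by
  have hp : 0 < (2 + h1 + h3) * (2 + h2 + h4) := by positivity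
  refine (hullcov (K := K) (a := (1 + h1, -1 - h4)) (b := (1 + h1, 1 + h2)) (c := (-1 - h3, 1 + h2))
    (d := (-1 - h3, -1 - h4)) ?_ ?_ ?_ ?_ ?_ fun x hx => ?_).mono ?_ <;>
    simp only [cr, Prod.fst_sub, Prod.snd_sub]
  any_goals linarith
  obtain ⟨k1, k2, k3, k4⟩ := hK x hx
  have u : 0 ≤ 2 + h1 + h3 := by positivity
  have v : 0 ≤ 2 + h2 + h4 := by positivity
  refine ⟨?_, ?_, ?_, ?_⟩
  · linarith [mul_nonneg v (sub_nonneg.2 k1)]
  · linarith [mul_nonneg u (sub_nonneg.2 k2)]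
  · linarith [mul_nonneg v (sub_nonneg.2 k3)]
  · linarith [mul_nonneg u (sub_nonneg.2 k4)]

/-- Lemma V: the inner octagon and the sum of the support values over its edges. -/
theorem octa (H : Nm K s t) : ∃ h1 h2 h3 h4 p1 p2 p3 p4 : ℝ,
    (0 ≤ h1 ∧ 0 ≤ h2 ∧ 0 ≤ h3 ∧ 0 ≤ h4) ∧
    (-1 ≤ p1 ∧ p1 ≤ 1 ∧ -1 ≤ p2 ∧ p2 ≤ 1 ∧ -1 ≤ p3 ∧ p3 ≤ 1 ∧ -1 ≤ p4 ∧ p4 ≤ 1) ∧
    (((1 + h1, p1) : P) ∈ K ∧ ((-p2, 1 + h2) : P) ∈ K ∧ ((-(1 + h3), -p3) : P) ∈ K ∧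
      ((p4, -(1 + h4)) : P) ∈ K) ∧
    (∀ x ∈ K, x.1 ≤ 1 + h1 ∧ x.2 ≤ 1 + h2 ∧ -x.1 ≤ 1 + h3 ∧ -x.2 ≤ 1 + h4) ∧
    sv K (h1, 1 + p1) + sv K (-h1, 1 - p1) + sv K (-(1 + p2), h2) + sv K (-(1 - p2), -h2) +
      sv K (-h3, -(1 + p3)) + sv K (h3, -(1 - p3)) + sv K (1 + p4, -h4) + sv K (1 - p4, h4) ≤
      2 * (volume K).toReal := by
  obtain ⟨h1, p1, n1, l1, u1, w1, b1, I1⟩ := H.cap
  obtain ⟨h2, p2, n2, l2, u2, w2, b2, I2⟩ := H.rotate.cap
  obtain ⟨h3, p3, n3, l3, u3, w3, b3, I3⟩ := H.rotate.rotate.cap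
  obtain ⟨h4, p4, n4, l4, u4, w4, b4, I4⟩ := H.rotate.rotate.rotate.cap
  have r1 : ∀ x ∈ K, ((x.2, -x.1) : P) ∈ rot ⁻¹' K := fun x hx => by simpa [rot] using hx
  have r2 : ∀ x ∈ K, ((-x.1, -x.2) : P) ∈ rot ⁻¹' (rot ⁻¹' K) := fun x hx => by
    simpa [rot] using hx
  have r3 : ∀ x ∈ K, ((-x.2, x.1) : P) ∈ rot ⁻¹' (rot ⁻¹' (rot ⁻¹' K)) := fun x hx => by
    simpa [rot] using hx
  refine ⟨h1, h2, h3, h4, p1, p2, p3, p4, ⟨n1, n2, n3, n4⟩, ⟨l1, u1, l2, u2, l3, u3, l4, u4⟩,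
    ⟨w1, w2, w3, by simpa [rot] using w4⟩,
    fun x hx => ⟨b1 x hx, b2 _ (r1 x hx), b3 _ (r2 x hx), b4 _ (r3 x hx)⟩, ?_⟩
  have S := fun e => sv_spec H.cpt ⟨_, H.a1⟩ e
  obtain ⟨y1, m1, k1, -⟩ := S (h1, 1 + p1)
  obtain ⟨z1, o1, j1, -⟩ := S (-h1, 1 - p1)
  obtain ⟨y2, m2, k2, -⟩ := S (-(1 + p2), h2)
  obtain ⟨z2, o2, j2, -⟩ := S (-(1 - p2), -h2)
  obtain ⟨y3, m3, k3, -⟩ := S (-h3, -(1 + p3))
  obtain ⟨z3, o3, j3, -⟩ := S (h3, -(1 - p3))
  obtain ⟨y4, m4, k4, -⟩ := S (1 + p4, -h4)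
  obtain ⟨z4, o4, j4, -⟩ := S (1 - p4, h4)
  have i1 := I1 _ m1 _ o1
  have i2 := I2 _ (r1 _ m2) _ (r1 _ o2)
  have i3 := I3 _ (r2 _ m3) _ (r2 _ o3)
  have i4 := I4 _ (r3 _ m4) _ (r3 _ o4)
  have := H.total
  rw [k1, k2, k3, k4, j1, j2, j3, j4]
  simp only [cr] at i1 i2 i3 i4 ⊢
  linarith

end Nm

/-- from normalised sets to all convex sets of area one -/
theorem reduce {c : ℝ} (core : ∀ (L : Set P) (s t : ℝ), Nm L s t → MaxPar L →
    Cov L (c * (volume L).toReal)) {K : Set P} (hK : Convex ℝ K) (hA : volume K = 1) :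
    Cov K c := by
  have tri : ∀ a ∈ K, ∀ b ∈ K, ∀ d ∈ K, |cr (b - a) (d - a)| ≤ 2 := by
    intro a ha b hb d hd
    have := measure_mono (μ := volume) (To_sub hK ha hb hd)
    rw [vol_To, hA, ENNReal.ofReal_le_one] at this
    linarith
  obtain ⟨a, ha, b, hb, d, hd, hp⟩ : ∃ a ∈ K, ∃ b ∈ K, ∃ d ∈ K, 0 < cr (b - a) (d - a) := by
    by_contra hc
    push Not at hc
    have z : ∀ a ∈ K, ∀ b ∈ K, ∀ d ∈ K, cr (b - a) (d - a) = 0 := fun a ha b hb d hd => by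
      have h1 := hc a ha b hb d hd
      have h2 := hc a ha d hd b hb
      simp only [cr] at *
      linarith
    have hne : K.Nonempty := nonempty_of_measure_ne_zero (μ := volume) (by rw [hA]; simp)
    obtain ⟨a, ha⟩ := hne
    have : ∃ u : P, K ⊆ aff a u 0 '' univ := by
      by_cases h : ∃ b ∈ K, b ≠ a
      · obtain ⟨b, hb, hba⟩ := h
        refine ⟨b - a, fun x hx => ?_⟩
        have k := z a ha b hb x hx
        simp only [cr, Prod.fst_sub, Prod.snd_sub] at k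
        by_cases h1 : b.1 - a.1 = 0
        · have h2 : b.2 - a.2 ≠ 0 := fun h2 => hba (Prod.ext (by linarith) (by linarith))
          refine ⟨((x.2 - a.2) / (b.2 - a.2), 0), trivial, ?_⟩
          ext
          · rw [aff_fst]; simp only [Prod.fst_sub]; field_simp; linear_combination k
          · rw [aff_snd]; simp only [Prod.snd_sub]; field_simp; ring
        · refine ⟨((x.1 - a.1) / (b.1 - a.1), 0), trivial, ?_⟩
          ext
          · rw [aff_fst]; simp only [Prod.fst_sub]; field_simp; ring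
          · rw [aff_snd]; simp only [Prod.snd_sub]; field_simp; linear_combination -k
      · push Not at h
        refine ⟨0, fun x hx => ⟨0, trivial, ?_⟩⟩
        rw [h x hx]; simp [aff]
    obtain ⟨u, hu⟩ := this
    have := measure_mono (μ := volume) hu
    rw [vol_aff, hA] at this
    simp [cr] at this
  have hb' : Bornology.IsBounded K := by
    have : K ⊆ aff a (b - a) (d - a) '' (Icc (-(2 / cr (b - a) (d - a))) (2 / cr (b - a) (d - a)) ×ˢ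
        Icc (-(2 / cr (b - a) (d - a))) (2 / cr (b - a) (d - a))) := by
      intro x hx
      have hD := hp.ne'
      refine ⟨(cr (x - a) (d - a) / cr (b - a) (d - a), cr (b - a) (x - a) / cr (b - a) (d - a)),
        ⟨abs_le.1 ?_, abs_le.1 ?_⟩, ?_⟩
      · rw [abs_div, abs_of_pos hp]; exact div_le_div_of_nonneg_right (tri a ha x hx d hd) hp.le
      · rw [abs_div, abs_of_pos hp]; exact div_le_div_of_nonneg_right (tri a ha b hb x hx) hp.le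
      · ext
        · rw [aff_fst]; simp only; field_simp; simp only [cr, Prod.fst_sub, Prod.snd_sub]; ring
        · rw [aff_snd]; simp only; field_simp; simp only [cr, Prod.fst_sub, Prod.snd_sub]; ring
    exact ((isCompact_Icc.prod isCompact_Icc).image (cont_aff _ _ _)).isBounded.subset this
  obtain ⟨L, o, u, v, s, t, hN, hM, e⟩ := normalise hK.closure hb'.isCompact_closure
    (subset_closure ha) (subset_closure hb) (subset_closure hd) hp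
  have hv : |cr u v| * (volume L).toReal = 1 := by
    have := vol_closure hK
    rw [e, vol_aff, hA] at this
    have := congrArg ENNReal.toReal this
    rwa [ENNReal.toReal_mul, ENNReal.toReal_ofReal (abs_nonneg _), ENNReal.toReal_one] at this
  obtain ⟨x1, x2, x3, x4, k1, k2⟩ := (core L s t hN hM).image o u v
  refine ⟨x1, x2, x3, x4, subset_closure.trans (e ▸ k1), k2.trans (le_of_eq ?_)⟩
  congr 1
  linear_combination c * hv

end Pool.Agent.Lib.MP_b29168_gt
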