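import Pool.Agent.Lib.MP_b29168_gt.Oct

/-! The constant `7/5`. -/

namespace Pool.Agent.Lib.MP_b29168_gt

open MeasureTheory Set

theorem Nm.split {K : Set P} {s t : ℝ} (H : Nm K s t) {f g e e' : P} {a b : ℝ} (a0 : 0 ≤ a)
    (a1 : a ≤ 1) (b0 : 0 ≤ b) (b1 : b ≤ 1) (h1 : e.1 = a * f.1 + b * g.1)
    (h2 : e.2 = a * f.2 + b * g.2) (h3 : e'.1 = (1 - a) * f.1 + (1 - b) * g.1)
    (h4 : e'.2 = (1 - a) * f.2 + (1 - b) * g.2) : sv K e + sv K e' ≤ sv K f + sv K g := by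
  have k1 := H.sv_two a0 b0 h1 h2
  have k2 := H.sv_two (sub_nonneg.2 a1) (sub_nonneg.2 b1) h3 h4
  linarith

theorem fin_seven {A k W : ℝ} (hA : 7 / 5 * A < 8) (hk : 4 / 7 < k) (w0 : 0 < W) (w1 : W ≤ A)
    (w2 : 7 / 5 * A * (2 * (2 + 361 / 5000 * k)) < W ^ 2) : False := by
  have : W ^ 2 ≤ A ^ 2 := by nlinarith
  nlinarith

theorem small_seven {u v : ℝ} (h1 : u + v < 12 / 7) (h2 : 4 / 7 < u * v) (hu : 0 ≤ u) :
    u ≤ 24 / 19 := by
  by_contra h
  nlinarith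

theorem core_seven (K : Set P) (s t : ℝ) (H : Nm K s t) : Cov K (7 / 5 * (volume K).toReal) := by
  by_contra hc
  have lt : ∀ r, Cov K r → 7 / 5 * (volume K).toReal < r := fun r hr =>
    not_le.1 fun h => hc (hr.mono h)
  obtain ⟨h1, h2, h3, h4, p1, p2, p3, p4, ⟨n1, n2, n3, n4⟩, ⟨l1, u1, l2, u2, l3, u3, l4, u4⟩, -, hb,
    hV⟩ := H.octa
  set A := (volume K).toReal
  have r1 := lt _ H.eight
  have r2 := lt _ (Nm.box n1 n2 n3 n4 hb)
  have hA : 4 + (h1 + h2 + h3 + h4) ≤ A := by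
    have k1 := H.le_sv H.a1 (h1, 1 + p1)
    have k2 := H.le_sv H.a2 (-h1, 1 - p1)
    have k3 := H.le_sv H.a2 (-(1 + p2), h2)
    have k4 := H.le_sv H.a3 (-(1 - p2), -h2)
    have k5 := H.le_sv H.a3 (-h3, -(1 + p3))
    have k6 := H.le_sv H.a4 (h3, -(1 - p3))
    have k7 := H.le_sv H.a4 (1 + p4, -h4)
    have k8 := H.le_sv H.a1 (1 - p4, h4)
    simp only [cr] at k1 k2 k3 k4 k5 k6 k7 k8
    linarith
  have hπ : 4 / 7 < (h1 + h3) * (h2 + h4) := by linarith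
  have c1 : h1 + h3 ≤ 24 / 19 := small_seven (by linarith) hπ (by linarith)
  have c2 : h2 + h4 ≤ 24 / 19 :=
    small_seven (v := h1 + h3) (by linarith) (by linarith) (by linarith)
  obtain ⟨x, hx⟩ : ∃ x : ℝ, x = -(19 / 100) * (h1 - h3) := ⟨_, rfl⟩
  obtain ⟨y, hy⟩ : ∃ y : ℝ, y = -(19 / 100) * (h2 - h4) := ⟨_, rfl⟩
  have x0 : 0 < 1 - x := by linarith
  have x1 : 0 < 1 + x := by linarith
  have y0 : 0 < 1 - y := by linarith
  have y1 : 0 < 1 + y := by linarith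
  have S1 := H.split (f := (h1, 1 + p1)) (g := (-h1, 1 - p1)) (e := (19 / 50 * h1, 1 + y))
    (e' := (-(19 / 50 * h1), 1 - y)) (a := 19 / 50 + (1 + y - 19 / 50 * (1 + p1)) / 2)
    (b := (1 + y - 19 / 50 * (1 + p1)) / 2) (by linarith) (by linarith) (by linarith) (by linarith)
    (by simp only; ring) (by simp only; ring) (by simp only; ring) (by simp only; ring)
  have S2 := H.split (f := (-(1 + p2), h2)) (g := (-(1 - p2), -h2)) (e := (-(1 - x), 19 / 50 * h2))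
    (e' := (-(1 + x), -(19 / 50 * h2))) (a := 19 / 50 + (1 - x - 19 / 50 * (1 + p2)) / 2)
    (b := (1 - x - 19 / 50 * (1 + p2)) / 2) (by linarith) (by linarith) (by linarith) (by linarith)
    (by simp only; ring) (by simp only; ring) (by simp only; ring) (by simp only; ring)
  have S3 := H.split (f := (-h3, -(1 + p3))) (g := (h3, -(1 - p3)))
    (e := (-(19 / 50 * h3), -(1 - y)))
    (e' := (19 / 50 * h3, -(1 + y))) (a := 19 / 50 + (1 - y - 19 / 50 * (1 + p3)) / 2)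
    (b := (1 - y - 19 / 50 * (1 + p3)) / 2) (by linarith) (by linarith) (by linarith) (by linarith)
    (by simp only; ring) (by simp only; ring) (by simp only; ring) (by simp only; ring)
  have S4 := H.split (f := (1 + p4, -h4)) (g := (1 - p4, h4)) (e := (1 + x, -(19 / 50 * h4)))
    (e' := (1 - x, 19 / 50 * h4)) (a := 19 / 50 + (1 + x - 19 / 50 * (1 + p4)) / 2)
    (b := (1 + x - 19 / 50 * (1 + p4)) / 2) (by linarith) (by linarith) (by linarith) (by linarith)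
    (by simp only; ring) (by simp only; ring) (by simp only; ring) (by simp only; ring)
  have P : ∀ {a b c d : ℝ}, 0 ≤ a → 0 ≤ b → 0 < c → 0 < d →
      0 < 19 / 50 * a * (19 / 50 * b) + c * d := fun ha hb hc hd => by positivity
  have q1 : 0 < cr (19 / 50 * h1, 1 + y) (-(1 - x), 19 / 50 * h2) :=
    (P n1 n2 y1 x0).trans_eq (by simp only [cr]; ring)
  have q2 : 0 < cr (-(1 - x), 19 / 50 * h2) (-(19 / 50 * h3), -(1 - y)) :=
    (P n2 n3 y0 x0).trans_eq (by simp only [cr]; ring)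
  have q3 : 0 < cr (-(19 / 50 * h3), -(1 - y)) (1 + x, -(19 / 50 * h4)) :=
    (P n3 n4 y0 x1).trans_eq (by simp only [cr]; ring)
  have q4 : 0 < cr (1 + x, -(19 / 50 * h4)) (19 / 50 * h1, 1 + y) :=
    (P n4 n1 y1 x1).trans_eq (by simp only [cr]; ring)
  have o1 : 0 < cr (-(19 / 50 * h1), 1 - y) (-(1 + x), -(19 / 50 * h2)) :=
    (P n1 n2 y0 x1).trans_eq (by simp only [cr]; ring)
  have o2 : 0 < cr (-(1 + x), -(19 / 50 * h2)) (19 / 50 * h3, -(1 + y)) :=
    (P n2 n3 y1 x1).trans_eq (by simp only [cr]; ring)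
  have o3 : 0 < cr (19 / 50 * h3, -(1 + y)) (1 - x, 19 / 50 * h4) :=
    (P n3 n4 y1 x0).trans_eq (by simp only [cr]; ring)
  have o4 : 0 < cr (1 - x, 19 / 50 * h4) (-(19 / 50 * h1), 1 - y) :=
    (P n4 n1 y0 x0).trans_eq (by simp only [cr]; ring)
  have r3 := lt _ (H.dual' (by simp only; linarith) (by simp only; linarith) q1 q2 q3 q4)
  have r4 := lt _ (H.dual' (by simp only; linarith) (by simp only; linarith) o1 o2 o3 o4)
  have e3 : cr (19 / 50 * h1, 1 + y) (-(1 - x), 19 / 50 * h2) +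
      cr (-(19 / 50 * h3), -(1 - y)) (1 + x, -(19 / 50 * h4)) =
      2 + 361 / 5000 * ((h1 + h3) * (h2 + h4)) := by simp only [cr, hx, hy]; ring
  have e4 : cr (-(19 / 50 * h1), 1 - y) (-(1 + x), -(19 / 50 * h2)) +
      cr (19 / 50 * h3, -(1 + y)) (1 - x, 19 / 50 * h4) =
      2 + 361 / 5000 * ((h1 + h3) * (h2 + h4)) := by simp only [cr, hx, hy]; ring
  rw [e3, lt_div_iff₀ (by linarith)] at r3
  rw [e4, lt_div_iff₀ (by linarith)] at r4
  have fin := fun W => fin_seven (W := W) r1 hπ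
  have w1 := add_pos (add_pos (add_pos (H.sv_pos q1) (H.sv_pos q2)) (H.sv_pos q3)) (H.sv_pos q4)
  have w2 := add_pos (add_pos (add_pos (H.sv_pos o1) (H.sv_pos o2)) (H.sv_pos o3)) (H.sv_pos o4)
  have k1 := fun h => fin _ w1 h r3
  have k2 := fun h => fin _ w2 h r4
  linarith only [not_le.1 k1, not_le.1 k2, S1, S2, S3, S4, hV]

theorem seven {K : Set P} (hK : Convex ℝ K) (hA : volume K = 1) : Cov K (7 / 5) :=
  reduce (fun L s t H _ => core_seven L s t H) hK hA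

end Pool.Agent.Lib.MP_b29168_gt
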